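import Mathlib
import Pool.Agent.Helper24.CB.Space

/-!
# CB-H: continuity of families of `C²` periodic functions into `H¹`
-/

open MeasureTheory Set Metric Topology
open scoped Real InnerProductSpace

namespace Pool.Agent.Helper24.CB

/-- a jointly continuous family is continuous into `L²` of a bounded interval -/
theorem continuous_toLp_aux {E : Type} [NormedAddCommGroup E]
    {X : Type} [TopologicalSpace X] (g : X → ℝ → E)
    (hg : Continuous (fun p : X × ℝ => g p.1 p.2))
    (hm : ∀ x, MemLp (g x) 2 (volume.restrict (Ioc 0 (2 * π)))) :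
    Continuous fun x => (hm x).toLp (g x) := by
  have hpi : (0 : ℝ) < 2 * π := by positivity
  let F : C(X × Icc (0 : ℝ) (2 * π), E) := ⟨fun p => g p.1 p.2, by
    exact hg.comp (continuous_fst.prodMk (continuous_subtype_val.comp continuous_snd))⟩
  rw [continuous_iff_continuousAt]
  intro x₀
  rw [ContinuousAt, Metric.tendsto_nhds]
  intro ε hε
  set c : ℝ := (measureUnivNNReal (volume.restrict (Ioc (0 : ℝ) (2 * π))) : ℝ) ^
    (2 : ENNReal).toReal⁻¹ with hc
  have hc0 : 0 ≤ c := by positivity
  have hη : 0 < ε / (2 * (c + 1)) := by positivity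
  have h1 := F.curry.continuous.continuousAt (x := x₀)
  rw [ContinuousAt, Metric.tendsto_nhds] at h1
  filter_upwards [h1 _ hη] with x hx
  rw [dist_eq_norm, ← MemLp.toLp_sub]
  refine (Lp.norm_le_of_ae_bound hη.le ?_).trans_lt ?_
  · filter_upwards [MemLp.coeFn_toLp ((hm x).sub (hm x₀)), ae_restrict_mem measurableSet_Ioc]
      with t ht ht'
    rw [ht]
    have h2 := (ContinuousMap.dist_lt_iff hη).1 hx ⟨t, Ioc_subset_Icc_self ht'⟩
    rw [dist_eq_norm] at h2
    exact h2.le
  · rw [← hc]
    calc c * (ε / (2 * (c + 1))) ≤ (c + 1) * (ε / (2 * (c + 1))) := by gcongr; linarith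
      _ = ε / 2 := by field_simp
      _ < ε := by linarith

/-- Module H -/
theorem continuous_into_H1 {E : Type} [NormedAddCommGroup E] [InnerProductSpace ℝ E]
    [FiniteDimensional ℝ E] {X : Type} [TopologicalSpace X] (u d a : X → ℝ → E)
    (hper : ∀ x, Function.Periodic (u x) (2 * π))
    (hd : ∀ x t, HasDerivAt (u x) (d x t) t) (ha : ∀ x t, HasDerivAt (d x) (a x t) t)
    (hu : Continuous (fun p : X × ℝ => u p.1 p.2)) (hac : Continuous (fun p : X × ℝ => a p.1 p.2)) :
    ∃ Φ : X → H1per E, (∀ x, (Φ x).toFun = u x) ∧ Continuous Φ := by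
  have hpi : (0 : ℝ) < 2 * π := by positivity
  have hax : ∀ x, Continuous (a x) := fun x => hac.comp (continuous_const.prodMk continuous_id)
  have hdx : ∀ x, Continuous (d x) := fun x =>
    continuous_iff_continuousAt.2 fun t => (ha x t).continuousAt
  -- formula for `d`
  have hA : Continuous fun p : X × ℝ => ∫ s in (0 : ℝ)..p.2, a p.1 s := by
    refine intervalIntegral.continuous_parametric_intervalIntegral_of_continuous
      (f := fun (p : X × ℝ) s => a p.1 s) ?_ continuous_snd
    exact hac.comp (by fun_prop : Continuous fun q : (X × ℝ) × ℝ => (q.1.1, q.2))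
  have hd1 : ∀ x t, d x t = d x 0 + ∫ s in (0 : ℝ)..t, a x s := by
    intro x t
    rw [intervalIntegral.integral_eq_sub_of_hasDerivAt (fun s _ => ha x s)
      ((hax x).intervalIntegrable _ _)]
    abel
  have hd0 : ∀ x, d x 0 = -((2 * π)⁻¹ • ∫ t in (0 : ℝ)..(2 * π), ∫ s in (0 : ℝ)..t, a x s) := by
    intro x
    have h1 : ∫ t in (0 : ℝ)..(2 * π), d x t = 0 := by
      rw [intervalIntegral.integral_eq_sub_of_hasDerivAt (fun s _ => hd x s)
        ((hdx x).intervalIntegrable _ _)]
      have := hper x 0
      rw [zero_add] at this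
      rw [this, sub_self]
    have hAx : Continuous fun t => ∫ s in (0 : ℝ)..t, a x s :=
      hA.comp (continuous_const.prodMk continuous_id)
    have h2 : ∫ t in (0 : ℝ)..(2 * π), d x t = (2 * π) • d x 0 +
        ∫ t in (0 : ℝ)..(2 * π), ∫ s in (0 : ℝ)..t, a x s := by
      rw [show (fun t => d x t) = fun t => d x 0 + ∫ s in (0 : ℝ)..t, a x s from
        funext (hd1 x)]
      rw [intervalIntegral.integral_add (continuous_const.intervalIntegrable _ _)
        (hAx.intervalIntegrable _ _), intervalIntegral.integral_const, sub_zero]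
    rw [h1] at h2
    have h3 : (2 * π) • d x 0 = -∫ t in (0 : ℝ)..(2 * π), ∫ s in (0 : ℝ)..t, a x s :=
      eq_neg_of_add_eq_zero_left h2.symm
    rw [← smul_neg, ← h3, smul_smul, inv_mul_cancel₀ hpi.ne', one_smul]
  have hd0c : Continuous fun x => d x 0 := by
    rw [show (fun x => d x 0) = fun x =>
      -((2 * π)⁻¹ • ∫ t in (0 : ℝ)..(2 * π), ∫ s in (0 : ℝ)..t, a x s) from funext hd0]
    refine (Continuous.const_smul ?_ _).neg
    exact intervalIntegral.continuous_parametric_intervalIntegral_of_continuous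
      (f := fun (x : X) t => ∫ s in (0 : ℝ)..t, a x s) hA continuous_const
  have hdc : Continuous (fun p : X × ℝ => d p.1 p.2) := by
    rw [show (fun p : X × ℝ => d p.1 p.2) = fun p : X × ℝ =>
      d p.1 0 + ∫ s in (0 : ℝ)..p.2, a p.1 s from funext fun p => hd1 p.1 p.2]
    exact (hd0c.comp continuous_fst).add hA
  have hderiv : ∀ x, deriv (u x) = d x := fun x => funext fun t => (hd x t).deriv
  have hmem : ∀ x, MemLp (d x) 2 (volume.restrict (Ioc 0 (2 * π))) := by
    intro x
    obtain ⟨C, hC⟩ := isCompact_Icc.exists_bound_of_continuousOn (hdx x).continuousOn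
      (s := Icc 0 (2 * π))
    refine MemLp.of_bound (hdx x).aestronglyMeasurable C ?_
    filter_upwards [ae_restrict_mem measurableSet_Ioc] with t ht using hC t (Ioc_subset_Icc_self ht)
  have hac' : ∀ x, AbsolutelyContinuousOnInterval (u x) 0 (2 * π) := by
    intro x
    apply ContDiffOn.absolutelyContinuousOnInterval
    apply ContDiff.contDiffOn
    rw [contDiff_one_iff_deriv, hderiv x]
    exact ⟨fun t => (hd x t).differentiableAt, hdx x⟩
  let Φ : X → H1per E := fun x => ⟨u x, hper x, hac' x, by rw [hderiv x]; exact hmem x⟩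
  refine ⟨Φ, fun x => rfl, ?_⟩
  rw [continuous_induced_rng]
  refine Continuous.prodMk ?_ ?_
  · exact continuous_toLp_aux u hu fun x => (Φ x).memLp
  · have h1 := continuous_toLp_aux d hdc hmem
    refine h1.congr fun x => ?_
    show (hmem x).toLp (d x) = (Φ x).sq.toLp (deriv (Φ x).toFun)
    exact (MemLp.toLp_eq_toLp_iff _ _).2 (Filter.Eventually.of_forall fun t => by
      show d x t = deriv (u x) t
      rw [hderiv x])

end Pool.Agent.Helper24.CB
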